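import Pool.Agent.H45.Greedy

open Complex Filter Topology Set Pool.Agent.H45.Greedy

namespace Pool.Agent.Results.MP_c62c12_an.Long

/-- `z 0, z 1, …` is the greedy walk `z₋₁, z₀, …` with signs `ε`, and no tie ever occurs -/
def Walk (α : ℝ) (z : ℕ → ℂ) (ε : ℕ → ℝ) : Prop :=
  ∀ n, (ε n = 1 ∨ ε n = -1) ∧ z (n + 1) = z n + ε n * exp (2 * Real.pi * I * α * n) ∧
    ‖z n + ε n * exp (2 * Real.pi * I * α * n)‖ < ‖z n - ε n * exp (2 * Real.pi * I * α * n)‖

/-- `p ≥ 1` is an eventual period of `ε` -/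
def Per (ε : ℕ → ℝ) (p : ℕ) : Prop := 1 ≤ p ∧ ∃ N, ∀ n ≥ N, ε (n + p) = ε n

lemma frac (M : ℕ) : ∃ n ≥ M, ∃ a : ℤ, Odd a ∧ (∀ i : ℕ, 0 < i → i < n → ¬ (2 * n : ℤ) ∣ i * a) ∧
    |n * a0 - a / 2| < 1 / 1000 := by
  obtain ⟨e, ⟨h1, h2⟩, e0⟩ := (((a0_irr.eventually_forall_le_dist_cast_div_of_denom_le (2 * M)).and
    (eventually_lt_nhds (by norm_num : (0 : ℝ) < 1 / 1000))).filter_mono nhdsWithin_le_nhds |>.and
      (self_mem_nhdsWithin (s := Ioi 0))).exists
  obtain ⟨m, hm, k, hk⟩ := approx a0_irr (1 / 2) e0 1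
  obtain ⟨a, n, c, ha, hn⟩ := Int.exists_gcd_one (m := 2 * k + 1) (n := m) (Int.gcd_pos_of_ne_zero_left _ (by omega))
  have g0 : 0 < Int.gcd (2 * k + 1) m := Int.gcd_pos_of_ne_zero_left _ (by omega)
  generalize Int.gcd (2 * k + 1) m = g at *
  have n0 : 0 < n := by by_contra h; nlinarith
  lift n to ℕ using n0.le
  have o : Odd a := (Int.odd_mul.1 (ha ▸ odd_two_mul_add_one k)).1
  have b : |n * a0 - a / 2| < e := by
    have a1 : (2 * k + 1 : ℝ) = a * g := by exact_mod_cast ha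
    have a2 : (m : ℝ) = n * g := by exact_mod_cast hn
    have g1 : (1 : ℝ) ≤ g := by exact_mod_cast g0
    rw [show m * a0 - 1 / 2 - k = (n * a0 - a / 2) * g by rw [a2]; linarith, abs_mul, Nat.abs_cast] at hk
    nlinarith [abs_nonneg (n * a0 - a / 2)]
  refine ⟨n, not_lt.1 fun h => ?_, a, o, fun i i0 i1 d => ?_, b.trans h2⟩
  · have := h1 (2 * n) (by omega) a
    have n1 : (1 : ℝ) ≤ n := by exact_mod_cast n0
    rw [Real.dist_eq, show a0 - a / (2 * n : ℕ) = (n * a0 - a / 2) / n by push_cast; field_simp, abs_div,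
      Nat.abs_cast, le_div_iff₀ (by linarith)] at this
    nlinarith [show 0 < e from e0]
  · have := Int.le_of_dvd (by exact_mod_cast i0) (((Int.isCoprime_two_left.2 o).mul_left
      (Int.isCoprime_iff_gcd_eq_one.2 c).symm).dvd_of_dvd_mul_right d)
    omega

lemma orbit (α x R : ℝ) (m : ℕ) (hx : exp (x * I) ^ 2 * exp (2 * Real.pi * α * I) ^ (m + 1) = -1)
    (h : Real.cos (2 * Real.pi * α) < 1)
    (hR : R * Real.cos (2 * Real.pi * α - x) = 1 + 2 * Real.cos (2 * Real.pi * α))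
    (h0 : 1 / 2 < R * Real.cos x) (h1 : R * Real.cos x < 3 / 2)
    (h2 : ∀ i : ℕ, 0 < i → i ≤ m → R * Real.cos (i * (2 * Real.pi * α) + x) < 1 / 2) :
    ∃ z, Walk α z fun j => if j % (m + 3) < 3 then -1 else 1 := by
  have e0 : (2 * Real.pi * α : ℂ) = (2 * Real.pi * α : ℝ) := by push_cast; rfl
  have F := frame α
  rw [e0] at hx F
  generalize 2 * Real.pi * α = φ at *
  set σ := exp (φ * I) with hσ
  set ρ := exp (-(φ * I)) with hρ
  set w := exp (x * I) with hw
  have ρσ : ρ * σ = 1 := by rw [hσ, hρ, ← exp_add]; simp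
  have r1 : ρ = ⟨Real.cos φ, -Real.sin φ⟩ := by
    rw [hρ, ← neg_mul, ← ofReal_neg]
    exact Complex.ext (by rw [exp_ofReal_mul_I_re, Real.cos_neg]) (by rw [exp_ofReal_mul_I_im, Real.sin_neg])
  have w1 : w = ⟨Real.cos x, Real.sin x⟩ := Complex.ext (exp_ofReal_mul_I_re x) (exp_ofReal_mul_I_im x)
  have s1 := Real.sin_sq_add_cos_sq φ
  rw [Real.cos_sub] at hR
  obtain ⟨c, c1, c2⟩ : ∃ c : ℂ, c.re = -1 / 2 ∧ ρ * (c + 1) = c := by
    refine ⟨⟨-1 / 2, -Real.sin φ / (2 * (1 - Real.cos φ))⟩, rfl, ?_⟩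
    have : 1 - Real.cos φ ≠ 0 := by linarith
    rw [r1]; apply Complex.ext <;> simp <;> field_simp <;> nlinarith
  have fx : ρ ^ 3 * (2 * c + R * w) = 2 * c + σ ^ m * (R * w) := by
    have k1 : R * (ρ ^ 2 * w ^ 2 + 1) = 2 * w * (1 + ρ + ρ ^ 2) := by
      have s2 := Real.sin_sq_add_cos_sq x
      have u : ∀ z : ℂ, z.re ^ 2 + z.im ^ 2 = 1 → z ^ 2 + 1 = 2 * z * z.re := fun z hz => by
        apply Complex.ext <;> simp [sq] <;> nlinarith
      have : (R * (ρ * w).re : ℂ) = 1 + 2 * ρ.re := by norm_cast; simpa [r1, w1] using hR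
      linear_combination R * u (ρ * w) (by simp [r1, w1]; nlinarith) - 2 * w * u ρ (by simp [r1]) + 2 * ρ * w * this
    have : w ≠ 0 := exp_ne_zero _
    apply mul_left_cancel₀ this
    linear_combination ρ * k1 - R * ρ * hx + 2 * w * (1 + ρ + ρ ^ 2) * c2 + R * σ ^ m * w ^ 2 * ρσ
  let v : ℕ → ℂ := fun k => if k < 3 then -c + ρ ^ k * (2 * c + R * w) else c + σ ^ (m + 3 - k) * (R * w)
  have vs : ∀ k < m + 3, v (k + 1) = ρ * (v k + (if k < 3 then -1 else 1 : ℝ)) := fun k hk => by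
    rcases lt_trichotomy k 2 with e | rfl | e
    · simp only [v, if_pos (by omega : k < 3), if_pos (by omega : k + 1 < 3)]
      push_cast; linear_combination c2
    · simp [v]; linear_combination c2 - fx
    · simp only [v, if_neg (by omega : ¬k < 3), if_neg (by omega : ¬k + 1 < 3)]
      rw [show m + 3 - k = m + 3 - (k + 1) + 1 by omega]
      generalize m + 3 - (k + 1) = t
      push_cast; linear_combination -c2 - σ ^ t * (R * w) * ρσ
  refine F (fun j => v (j % (m + 3))) _ (fun j => by split_ifs <;> simp) (fun j => ?_) fun j => ?_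
  · rw [← vs _ (Nat.mod_lt _ (by omega)), ← Nat.mod_add_mod]
    rcases (Nat.succ_le_of_lt (Nat.mod_lt j (by omega : 0 < m + 3))).lt_or_eq with e | e
    · rw [Nat.mod_eq_of_lt e]
    · rw [show j % (m + 3) + 1 = m + 3 from e]; simp [v]; ring
  · have hk := Nat.mod_lt j (by omega : 0 < m + 3)
    generalize j % (m + 3) = k at *
    have q1 : ρ * c = c - ρ := by linear_combination c2
    rcases (by omega : k = 0 ∨ k = 1 ∨ k = 2 ∨ ¬k < 3) with rfl | rfl | rfl | e
    · simp [v, c1, w1]; linarith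
    · have : v 1 = c - 2 * ρ + R * (ρ * w) := by simp [v]; linear_combination 2 * q1
      rw [this]; simp [c1, w1, r1]; linarith
    · have : v 2 = c - 2 * ρ - 2 * ρ ^ 2 + R * (ρ ^ 2 * w) := by simp [v]; linear_combination (2 * ρ + 2) * q1
      rw [this]; simp [c1, w1, r1, sq]; nlinarith
    · have := h2 (m + 3 - k) (by omega) (by omega)
      simp only [v, if_neg e]
      rw [mul_left_comm, hσ, hw, ← exp_nat_mul, ← exp_add, show ((m + 3 - k : ℕ) : ℂ) * (φ * I) + x * I =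
        (((m + 3 - k : ℕ) * φ + x : ℝ) : ℂ) * I by push_cast; ring, add_re, re_ofReal_mul, exp_ofReal_mul_I_re]
      linarith

theorem result (c : ℝ) (_ : 0 < c) : ∃ α : ℝ, 0 < α ∧ Irrational α ∧ ∃ z ε, Walk α z ε ∧ (∃ p, Per ε p) ∧
    ∀ p, Per ε p → c / |2 * α - round (2 * α)| < p := by
  obtain ⟨n, hn, a, ⟨k, o⟩, nd, ha⟩ := frac (⌈5 * c⌉₊ + 100)
  have n1 : (100 : ℝ) ≤ n := by exact_mod_cast le_trans (by omega) hn
  have pi := Real.pi_gt_three
  have pi' := Real.pi_lt_d2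
  let x : ℝ → ℝ := fun α => Real.pi * (a / 2 - n * α)
  have cx : Continuous x := by fun_prop
  let J := Ioo ((a / 2 - 1 / (Real.pi * n)) / n) ((a / 2 + 1 / (Real.pi * n)) / n)
  have hJ : ∀ α, α ∈ J ↔ |x α| < 1 / n := fun α => by
    simp only [J, x, mem_Ioo]
    rw [div_lt_iff₀ (by linarith), lt_div_iff₀ (by linarith), abs_mul, abs_of_pos Real.pi_pos,
      ← lt_div_iff₀' Real.pi_pos, div_div, mul_comm (n : ℝ) Real.pi, abs_lt]
    constructor <;> rintro ⟨_, _⟩ <;> constructor <;> linarith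
  have n2 : (1 : ℝ) / n ≤ 1 / 100 := one_div_le_one_div_of_le (by norm_num) n1
  have n3 : (0 : ℝ) < 1 / n := by positivity
  have bd : ∀ α ∈ J, |2 * Real.pi * α - 2 * Real.pi * a0| ≤ 3 / 100 * (1 / n) := fun α h => by
    rw [hJ] at h
    rw [show 2 * Real.pi * α - 2 * Real.pi * a0 = (-2 * x α - 2 * Real.pi * (n * a0 - a / 2)) * (1 / n) by
      simp only [x]; field_simp; ring, abs_mul, abs_of_pos n3]
    gcongr
    rw [abs_lt] at h ha; rw [abs_le]; constructor <;> nlinarith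
  have s5 : (2.2 : ℝ) < √5 := Real.lt_sqrt_of_sq_lt (by norm_num)
  have bc : ∀ α ∈ J, |Real.cos (2 * Real.pi * α) + 2 / 3| ≤ 3 / 100 * (1 / n) ∧
      0.7 < Real.sin (2 * Real.pi * α) := fun α h => by
    have h1 := (Real.abs_cos_sub_cos_le _ _).trans (bd α h)
    have h2 := abs_le.1 ((Real.abs_sin_sub_sin_le _ _).trans (bd α h))
    rw [a0_cos] at h1; rw [a0_sin] at h2
    exact ⟨by rwa [neg_div, sub_neg_eq_add] at h1, by linarith⟩
  have cc : ∀ α ∈ J, Real.cos (2 / n) < Real.cos (x α) := fun α h => by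
    rw [hJ] at h
    rw [← Real.cos_abs (x α)]
    exact Real.cos_lt_cos_of_nonneg_of_le_pi (abs_nonneg _) (by rw [div_eq_mul_one_div]; linarith)
      (by rw [div_eq_mul_one_div]; linarith)
  have c2 : 1 / 2 < Real.cos (2 / n) := by
    have := Real.one_sub_sq_div_two_le_cos (x := 2 / n)
    rw [div_eq_mul_one_div 2 (n : ℝ)] at *; nlinarith
  let N : ℝ → ℝ := fun α => -(1 + 2 * Real.cos (2 * Real.pi * α))
  let D : ℝ → ℝ := fun α => -Real.cos (2 * Real.pi * α - x α)
  have N0 : ∀ α ∈ J, 0 < N α := fun α h => by have := abs_le.1 (bc α h).1; simp only [N]; linarith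
  have cov : ∀ α ∈ J, 2 * N α * Real.cos (x α) ≤ D α → 2 * N α * Real.cos (2 / n) < D α := fun α h e => by
    nlinarith [cc α h, N0 α h]
  have pt : ∀ s : ℝ, |s| = 1 → ∃ α ∈ J, 0 < s * (2 * N α * Real.cos (x α) - D α) := fun s hs => by
    have e : x ((a / 2 - s / (2 * Real.pi * n)) / n) = s * (1 / n / 2) := by simp only [x]; field_simp; ring
    generalize (a / 2 - s / (2 * Real.pi * n)) / n = α at e
    have h : α ∈ J := by rw [hJ, e, abs_mul, hs, abs_of_pos (by positivity)]; linarith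
    refine ⟨α, h, ?_⟩
    obtain ⟨b1, b2⟩ := bc α h
    have b3 := Real.mul_le_sin (x := 1 / n / 2) (by positivity) (by linarith)
    rw [div_mul_eq_mul_div, div_le_iff₀ Real.pi_pos] at b3
    have b4 : 0.3 * (1 / n) < Real.sin (1 / n / 2) := by nlinarith [Real.sin_le (x := 1 / n / 2) (by positivity)]
    have b5 := Real.cos_le_one (1 / n / 2)
    have b6 := Real.cos_nonneg_of_neg_pi_div_two_le_of_le (x := 1 / n / 2) (by linarith) (by linarith)
    rw [abs_le] at b1
    simp only [N, D, Real.cos_sub, e]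
    rcases eq_or_eq_neg_of_abs_eq hs with rfl | rfl <;> simp only [one_mul, neg_mul, Real.cos_neg, Real.sin_neg] <;>
      nlinarith
  have oA : IsOpen {α | D α < 2 * N α * Real.cos (x α)} := isOpen_lt (by fun_prop) (by fun_prop)
  have oB : IsOpen {α | 2 * N α * Real.cos (2 / n) < D α} := isOpen_lt (by fun_prop) (by fun_prop)
  obtain ⟨α, i, hα, hA, hB⟩ := dense_irrational.exists_mem_open (isOpen_Ioo.inter (oA.inter oB))
    (isPreconnected_Ioo _ _ oA oB (fun α h => (lt_or_ge (D α) _).imp id (cov α h))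
      ((pt 1 (by simp)).imp fun α h => ⟨h.1, by simpa using h.2⟩)
      ((pt (-1) (by simp)).imp fun α h => ⟨h.1, cov α h.1 (by linarith [h.2])⟩))
  replace hA : D α < 2 * N α * Real.cos (x α) := hA
  replace hB : 2 * N α * Real.cos (2 / n) < D α := hB
  obtain ⟨b1, b2⟩ := bc α hα
  have N1 := N0 α hα
  have D0 : 0 < D α := by nlinarith
  have hx := abs_lt.1 ((hJ α).1 hα)
  have key : ∀ i : ℕ, 0 < i → i < n → Real.cos (i * (2 * Real.pi * α) + x α) ≤ Real.cos (2 / n) := fun i i0 i1 => by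
    have d := nd i i0 i1
    have e := Int.mul_ediv_add_emod (i * a) (2 * n)
    have l := Int.emod_lt_of_pos (i * a) (by omega : (0 : ℤ) < 2 * n)
    have g := (Int.emod_nonneg (i * a) (by omega : (2 * n : ℤ) ≠ 0)).lt_of_ne'
      fun h => d (Int.dvd_of_emod_eq_zero h)
    have i2 : (i : ℝ) ≤ n := by exact_mod_cast i1.le
    generalize i * a % (2 * n) = j at *
    generalize i * a / (2 * n) = q at *
    have e' : 2 * n * (q : ℝ) + j = i * a := by exact_mod_cast e
    have g' : (1 : ℝ) ≤ j := by exact_mod_cast g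
    have l' : (j + 1 : ℝ) ≤ 2 * n := by exact_mod_cast l
    have t : |x α * (1 - 2 * i / n)| ≤ 1 / n := by
      rw [abs_mul]
      refine (mul_le_of_le_one_right (abs_nonneg _) (abs_le.2 ⟨?_, ?_⟩)).trans (abs_lt.2 hx).le
      · rw [mul_div_assoc]; linarith [(div_le_one (by linarith)).2 i2]
      · simp; positivity
    rw [show i * (2 * Real.pi * α) + x α = j * Real.pi * (1 / n) + x α * (1 - 2 * i / n) + q * (2 * Real.pi) by
      simp only [x]; field_simp; linear_combination -2 * e', Real.cos_add_int_mul_two_pi, div_eq_mul_one_div 2]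
    have n4 : n * (1 / n : ℝ) = 1 := by field_simp
    rw [abs_le] at t
    have t1 : 3 * (1 / n) ≤ j * Real.pi * (1 / n) := by gcongr; nlinarith
    have t2 : 3 * (1 / n) ≤ (2 * n - j) * Real.pi * (1 / n) := by gcongr; nlinarith
    rcases le_total (j * Real.pi * (1 / n) + x α * (1 - 2 * i / n)) Real.pi with h | h
    · exact Real.cos_le_cos_of_nonneg_of_le_pi (by linarith) h (by linarith)
    · rw [← Real.cos_two_pi_sub]
      exact Real.cos_le_cos_of_nonneg_of_le_pi (by linarith) (by linarith) (by nlinarith)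
  obtain ⟨m, rfl⟩ : ∃ m, n = m + 1 := ⟨n - 1, by omega⟩
  obtain ⟨z, hz⟩ := orbit α (x α) (N α / D α) m (by
      rw [← exp_nat_mul, ← exp_nat_mul, ← exp_add, ← exp_pi_mul_I, ← mul_one (exp (Real.pi * I)),
        ← exp_int_mul_two_pi_mul_I k, ← exp_add]
      simp only [x, o]; push_cast; ring_nf) (by linarith [abs_le.1 b1])
    (by rw [div_mul_eq_mul_div, div_eq_iff D0.ne']; simp only [N, D]; ring)
    (by rw [div_mul_eq_mul_div, lt_div_iff₀ D0]; linarith)
    (by rw [div_mul_eq_mul_div, div_lt_iff₀ D0]; nlinarith [Real.cos_le_one (x α)]) fun i i0 i1 => by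
      have := key i i0 (by omega)
      rw [div_mul_eq_mul_div, div_lt_iff₀ D0]; nlinarith
  refine ⟨α, ?_, i, z, _, hz, ⟨m + 3, by omega, 0, fun j _ => by simp⟩, fun p ⟨p1, N, hp⟩ => ?_⟩
  · have := Real.sin_le (x := 2 * Real.pi * a0) (by have := a0_pos; positivity)
    rw [a0_sin] at this
    nlinarith [abs_le.1 (bd α hα)]
  · have p2 : m < p := not_le.1 fun h => by
      have := hp ((m + 3) * N + (m + 3 - p)) (by nlinarith [Nat.zero_le (m + 3 - p)])
      rw [add_assoc, Nat.sub_add_cancel (by omega)] at this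
      simp only [Nat.mul_add_mod, Nat.mod_self, Nat.mod_eq_of_lt (show m + 3 - p < m + 3 by omega),
        if_neg (show ¬m + 3 - p < 3 by omega)] at this
      norm_num at this
    have : 1 / 5 < |2 * α - round (2 * α)| := by
      have := Real.abs_sin_le_abs (x := Real.pi * (2 * α - round (2 * α)))
      rw [abs_mul, abs_of_pos Real.pi_pos, show Real.pi * (2 * α - round (2 * α)) =
        2 * Real.pi * α - round (2 * α) * Real.pi by ring, Real.sin_sub_int_mul_pi, abs_mul] at this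
      simp at this
      nlinarith [le_abs_self (Real.sin (2 * Real.pi * α))]
    rw [div_lt_iff₀ (by linarith)]
    have p3 : (⌈5 * c⌉₊ + 1 : ℝ) ≤ p := by exact_mod_cast (by omega : ⌈5 * c⌉₊ + 1 ≤ p)
    nlinarith [Nat.le_ceil (5 * c)]

end Pool.Agent.Results.MP_c62c12_an.Long
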